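import Mathlib
import Pool.Agent.H69.Banach

open Filter Topology

namespace Pool.Agent.Results.MP_76953b_al.Infinite

/-- Every integer valued, left invariant, proper metric on a finitely generated group that is not
virtually cyclic has an infinite metric-functional boundary. -/
theorem result (G : Type*) [Group G] [Group.FG G] [MetricSpace G]
    (hint : ∀ x y : G, ∃ n : ℤ, dist x y = n)
    (hinv : ∀ g x y : G, dist (g * x) (g * y) = dist x y)
    (hproper : ∀ (x : G) (r : ℝ), (Metric.closedBall x r).Finite)
    (hG : ¬ ∃ C : Subgroup G, IsCyclic C ∧ C.FiniteIndex) :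
    {f : G → ℝ | ∃ x : ℕ → G, Tendsto (fun n => dist (x n) 1) atTop atTop ∧
      ∀ y : G, Tendsto (fun n => dist (x n) y - dist (x n) 1) atTop (𝓝 (f y))}.Infinite :=
  fun h => hG (Pool.Agent.H69.Banach.main hint hinv hproper h)

end Pool.Agent.Results.MP_76953b_al.Infinite
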